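import Pool.Agent.Helper71.SDX.Defs

/-! # SDX, module L1: the numbers (helper44) -/

set_option autoImplicit false

open Filter Asymptotics

namespace SDX

namespace h44

/-- binomial coefficient over a power -/
theorem choose_div (N k b : ℕ) (hk : 0 < k) (hb : 0 < b) :
    (N.choose k : ℝ) / (b : ℝ) ^ k ≤ (Real.exp 1 * N / (k * b)) ^ k := by
  have hk' : (0 : ℝ) < k := by exact_mod_cast hk
  have hb' : (0 : ℝ) < b := by exact_mod_cast hb
  have h1 : (N.choose k : ℝ) ≤ (N : ℝ) ^ k / (k.factorial : ℝ) := Nat.choose_le_pow_div k N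
  have h2 : (k : ℝ) ^ k / (k.factorial : ℝ) ≤ Real.exp k :=
    Real.pow_div_factorial_le_exp (k : ℝ) hk'.le k
  have hf : (0 : ℝ) < (k.factorial : ℝ) := by exact_mod_cast k.factorial_pos
  have h3 : Real.exp (k : ℝ) = Real.exp 1 ^ k := by
    rw [← Real.exp_nat_mul]; simp
  have h4 : (1 : ℝ) / (k.factorial : ℝ) ≤ Real.exp 1 ^ k / (k : ℝ) ^ k := by
    rw [← h3, div_le_div_iff₀ hf (by positivity)]
    rw [div_le_iff₀ hf] at h2
    linarith
  calc (N.choose k : ℝ) / (b : ℝ) ^ k ≤ ((N : ℝ) ^ k / (k.factorial : ℝ)) / (b : ℝ) ^ k := by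
        gcongr
    _ = (N : ℝ) ^ k * (1 / (k.factorial : ℝ)) / (b : ℝ) ^ k := by ring
    _ ≤ (N : ℝ) ^ k * (Real.exp 1 ^ k / (k : ℝ) ^ k) / (b : ℝ) ^ k := by
        gcongr
    _ = (Real.exp 1 * N / (k * b)) ^ k := by
        rw [div_pow, mul_pow, mul_pow]
        field_simp

/-- eventual properties of a real number -/
theorem evy (c₀ : ℝ) (hc₀ : 0 < c₀) : ∃ M₀ : ℝ, 4 ≤ M₀ ∧ ∀ y : ℝ, M₀ ≤ y →
    4 * (10 : ℝ) ^ 7 * 16 ^ 6 * y ^ 6 * Real.exp (-(7 / 16 * y)) ≤ c₀ ^ 2 ∧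
      4 * Real.log y ≤ y / 4 ∧ Real.log (20000 / c₀) ≤ y / 4 := by
  have e1 : ∀ᶠ y : ℝ in atTop, ‖y ^ 6‖ ≤ c₀ ^ 2 / (4 * (10 : ℝ) ^ 7 * 16 ^ 6) *
      ‖Real.exp (7 / 16 * y)‖ :=
    (isLittleO_pow_exp_pos_mul_atTop 6 (b := 7 / 16) (by norm_num)).def (by positivity)
  have e2 : ∀ᶠ y : ℝ in atTop, ‖Real.log y‖ ≤ 1 / 16 * ‖id y‖ :=
    Real.isLittleO_log_id_atTop.def (by norm_num)
  have e3 : ∀ᶠ y : ℝ in atTop, 4 * Real.log (20000 / c₀) ≤ y := eventually_ge_atTop _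
  have e4 : ∀ᶠ y : ℝ in atTop, (4 : ℝ) ≤ y := eventually_ge_atTop _
  obtain ⟨M, hM⟩ := eventually_atTop.mp (e1.and (e2.and (e3.and e4)))
  refine ⟨max M 4, le_max_right _ _, fun y hy => ?_⟩
  obtain ⟨h1, h2, h3, h4⟩ := hM y (le_trans (le_max_left _ _) hy)
  have hy0 : 0 < y := by linarith
  refine ⟨?_, ?_, by linarith⟩
  · rw [Real.norm_eq_abs, Real.norm_eq_abs, abs_of_pos (by positivity),
      abs_of_pos (Real.exp_pos _)] at h1
    have h5 : Real.exp (7 / 16 * y) * Real.exp (-(7 / 16 * y)) = 1 := by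
      rw [← Real.exp_add]; simp
    have h6 := mul_le_mul_of_nonneg_right h1 (Real.exp_pos (-(7 / 16 * y))).le
    rw [mul_assoc (c₀ ^ 2 / _), h5, mul_one, le_div_iff₀ (by positivity)] at h6
    linarith
  · rw [id, Real.norm_eq_abs, Real.norm_eq_abs, abs_of_pos hy0] at h2
    have := le_abs_self (Real.log y)
    linarith

/-- eventual properties of `n` -/
theorem evn (δ M₀ : ℝ) (hδ : 0 < δ) : ∃ n₀ : ℕ, ∀ n : ℕ, n₀ ≤ n →
    2 ≤ n ∧ M₀ ≤ Real.log n ∧ Real.log n ^ 2 ≤ δ * Real.sqrt n := by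
  have e1 : ∀ᶠ y : ℝ in atTop, ‖Real.log y ^ (2 : ℝ)‖ ≤ δ * ‖y ^ (1 / 2 : ℝ)‖ :=
    (isLittleO_log_rpow_rpow_atTop 2 (s := 1 / 2) (by norm_num)).def hδ
  have e2 : ∀ᶠ y : ℝ in atTop, M₀ ≤ Real.log y := Real.tendsto_log_atTop.eventually_ge_atTop _
  have e3 : ∀ᶠ y : ℝ in atTop, (2 : ℝ) ≤ y := eventually_ge_atTop _
  have e4 : ∀ᶠ n : ℕ in atTop, (‖Real.log (n : ℝ) ^ (2 : ℝ)‖ ≤ δ * ‖(n : ℝ) ^ (1 / 2 : ℝ)‖) ∧
      M₀ ≤ Real.log n ∧ (2 : ℝ) ≤ n :=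
    tendsto_natCast_atTop_atTop.eventually (e1.and (e2.and e3))
  obtain ⟨n₀, h⟩ := eventually_atTop.mp e4
  refine ⟨n₀, fun n hn => ?_⟩
  obtain ⟨h1, h2, h3⟩ := h n hn
  refine ⟨by exact_mod_cast h3, h2, ?_⟩
  rw [← Real.sqrt_eq_rpow, Real.norm_eq_abs, Real.norm_eq_abs,
    abs_of_nonneg (Real.sqrt_nonneg _), Real.rpow_two] at h1
  exact le_trans (le_abs_self _) h1

end h44

open h44 in
/-- L1: the numbers. -/
theorem numbers (c₀ : ℝ) (hc₀ : 0 < c₀) (hc₁ : c₀ ≤ 1) :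
    ∃ c > 0, ∃ n₀ : ℕ, ∀ n : ℕ, n₀ ≤ n → ∃ m b t i K : ℕ, Odd m ∧ 0 < b ∧ m * b ≤ n ∧
      4 * t ≤ m ∧ 8 * i + 2 ≤ m ∧ ∀ r : ℕ, 0 < r →
        (r : ℝ) ≤ Real.exp (c * Real.sqrt n / Real.log n ^ (3 / 4 : ℝ)) + 1 →
        Real.sqrt (640 * ((m : ℝ) / (2 * i + 1)) ^ 3 / c₀)
          * Real.log (10000 * (m : ℝ) ^ 4 * r / c₀) ≤ K ∧
        (r : ℝ) * ((m * b + 1 : ℕ) : ℝ) ^ (4 * i) *
          (((K * m + 4 * i).choose (t + 1) : ℝ) / (b : ℝ) ^ (t + 1))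
            * (2 * (10 : ℝ) ^ 7) * ((m : ℝ) / (2 * i + 1)) ^ 6 ≤ c₀ ^ 2 := by
  obtain ⟨M₀, hM4, hM⟩ := evy c₀ hc₀
  obtain ⟨n₀, hn₀⟩ := evn (c₀ / 8000) M₀ (by positivity)
  refine ⟨c₀ / 128000, by positivity, n₀, fun n hn => ?_⟩
  obtain ⟨hn2, hL, hL2⟩ := hn₀ n hn
  set L : ℝ := Real.log n with hLdef
  have hn0 : (0 : ℝ) < n := by exact_mod_cast (by omega : 0 < n)
  have hL4 : 4 ≤ L := le_trans hM4 hL
  have hL0 : 0 < L := by linarith
  have hL34 : 0 < L ^ (3 / 4 : ℝ) := Real.rpow_pos_of_pos hL0 _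
  set x : ℝ := Real.sqrt n / L ^ (3 / 4 : ℝ) with hx
  have hsq : 0 < Real.sqrt n := Real.sqrt_pos.mpr hn0
  have hx0 : 0 < x := by positivity
  -- x is large
  have hL34' : L ^ (3 / 4 : ℝ) ≤ L := by
    calc L ^ (3 / 4 : ℝ) ≤ L ^ (1 : ℝ) :=
          Real.rpow_le_rpow_of_exponent_le (by linarith) (by norm_num)
      _ = L := Real.rpow_one L
  have hxL : L ≤ c₀ / 8000 * x := by
    rw [hx, ← mul_div_assoc, le_div_iff₀ hL34]
    calc L * L ^ (3 / 4 : ℝ) ≤ L * L := by gcongr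
      _ = L ^ 2 := by ring
      _ ≤ _ := hL2
  -- x² L^(3/2) = n
  have hx2 : x ^ 2 * L ^ (3 / 2 : ℝ) = n := by
    rw [hx, div_pow, Real.sq_sqrt hn0.le]
    have : (L ^ (3 / 4 : ℝ)) ^ 2 = L ^ (3 / 2 : ℝ) := by
      rw [← Real.rpow_natCast, ← Real.rpow_mul hL0.le]; norm_num
    rw [this]
    have : L ^ (3 / 2 : ℝ) ≠ 0 := (Real.rpow_pos_of_pos hL0 _).ne'
    field_simp
  set L3 : ℝ := L ^ (3 / 2 : ℝ) with hL3
  have hL31 : 1 ≤ L3 := Real.one_le_rpow (by linarith) (by norm_num)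
  -- the number m
  obtain ⟨f, hf⟩ : ∃ f : ℕ, f = ⌊c₀ / 12000 * x⌋₊ := ⟨_, rfl⟩
  have hf1 : (f : ℝ) ≤ c₀ / 12000 * x := by rw [hf]; exact Nat.floor_le (by positivity)
  have hf2 : c₀ / 12000 * x < f + 1 := by rw [hf]; exact Nat.lt_floor_add_one _
  obtain ⟨m, hm⟩ : ∃ m : ℕ, m = 2 * f + 1 := ⟨_, rfl⟩
  have hmr : (m : ℝ) = 2 * f + 1 := by rw [hm]; push_cast; ring
  have hm1 : c₀ / 8000 * x ≤ m := by
    rw [hmr]; nlinarith
  have hm2 : (m : ℝ) ≤ c₀ / 4000 * x := by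
    rw [hmr]; nlinarith
  have hmL : L ≤ m := le_trans hxL hm1
  have hm4 : (4 : ℝ) ≤ m := by linarith
  have hm0 : (0 : ℝ) < m := by linarith
  have hm4' : 4 ≤ m := by exact_mod_cast hm4
  obtain ⟨hA, hB, hC⟩ := hM (m : ℝ) (le_trans hL hmL)
  -- the number b
  obtain ⟨b, hb⟩ : ∃ b : ℕ, b = n / m := ⟨_, rfl⟩
  have hmb : m * b ≤ n := by rw [hb]; exact Nat.mul_div_le n m
  have hb1 : (n : ℝ) / m < b + 1 := by
    rw [div_lt_iff₀ hm0]
    have : n < m * (b + 1) := by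
      rw [hb]; exact Nat.lt_mul_div_succ n (by omega)
    have h' : (n : ℝ) < (m : ℝ) * ((b : ℝ) + 1) := by exact_mod_cast this
    linarith
  have hb2 : 16000000 / c₀ * (m : ℝ) * L3 ≤ (n : ℝ) / m := by
    rw [le_div_iff₀ hm0, ← hx2]
    have h1 : (m : ℝ) ^ 2 ≤ (c₀ / 4000 * x) ^ 2 := by gcongr
    have h2 : 16000000 / c₀ * (m : ℝ) * L3 * m = 16000000 / c₀ * L3 * (m : ℝ) ^ 2 := by ring
    rw [h2]
    calc 16000000 / c₀ * L3 * (m : ℝ) ^ 2 ≤ 16000000 / c₀ * L3 * (c₀ / 4000 * x) ^ 2 := by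
          gcongr
      _ = c₀ * (x ^ 2 * L3) := by field_simp; ring
      _ ≤ 1 * (x ^ 2 * L3) := by gcongr
      _ = x ^ 2 * L3 := one_mul _
  have hb3 : 15000000 / c₀ * (m : ℝ) * L3 ≤ b := by
    have h1 : (1 : ℝ) ≤ 1000000 / c₀ * (m : ℝ) * L3 := by
      have h2 : (1 : ℝ) ≤ 1000000 / c₀ := by rw [le_div_iff₀ hc₀]; linarith
      have h3 : (1 : ℝ) * 1 * 1 ≤ 1000000 / c₀ * (m : ℝ) * L3 := by
        gcongr
        linarith
      linarith
    have h4 : 16000000 / c₀ * (m : ℝ) * L3 =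
      15000000 / c₀ * (m : ℝ) * L3 + 1000000 / c₀ * (m : ℝ) * L3 := by ring
    linarith
  have hb0 : (0 : ℝ) < b := lt_of_lt_of_le (by positivity) hb3
  have hb0' : 0 < b := by exact_mod_cast hb0
  -- the number i
  obtain ⟨i, hi⟩ : ∃ i : ℕ, i = ⌊(m : ℝ) / (16 * L)⌋₊ := ⟨_, rfl⟩
  have hi1 : (i : ℝ) ≤ (m : ℝ) / (16 * L) := by rw [hi]; exact Nat.floor_le (by positivity)
  have hi2 : (m : ℝ) / (16 * L) < i + 1 := by rw [hi]; exact Nat.lt_floor_add_one _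
  have hiL : (i : ℝ) * L ≤ m / 16 := by
    rw [le_div_iff₀ (by positivity)] at hi1
    linarith
  have hi3 : (i : ℝ) ≤ m / 64 := by
    nlinarith [(Nat.cast_nonneg i : (0 : ℝ) ≤ i)]
  have hi4 : 8 * i + 2 ≤ m := by
    have : (8 : ℝ) * i + 2 ≤ m := by linarith
    exact_mod_cast this
  have hX : (m : ℝ) / (2 * i + 1) ≤ 16 * L := by
    rw [div_lt_iff₀ (by positivity)] at hi2
    rw [div_le_iff₀ (by positivity)]
    nlinarith [(Nat.cast_nonneg i : (0 : ℝ) ≤ i)]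
  have hX0 : 0 ≤ (m : ℝ) / (2 * i + 1) := by positivity
  -- the number t
  obtain ⟨t, ht⟩ : ∃ t : ℕ, t = m / 4 := ⟨_, rfl⟩
  have ht1 : 4 * t ≤ m := by omega
  have ht2 : (m : ℝ) / 4 ≤ ((t + 1 : ℕ) : ℝ) := by
    have : m ≤ 4 * (t + 1) := by omega
    have h' : (m : ℝ) ≤ 4 * ((t + 1 : ℕ) : ℝ) := by exact_mod_cast this
    linarith
  -- the number K
  have hS : Real.sqrt (640 * ((m : ℝ) / (2 * i + 1)) ^ 3 / c₀) ≤ 1620 / c₀ * L3 := by
    rw [Real.sqrt_le_left (by positivity)]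
    have h1 : (1620 / c₀ * L3) ^ 2 = 1620 ^ 2 / c₀ ^ 2 * L ^ 3 := by
      have : L3 ^ 2 = L ^ 3 := by
        rw [hL3, ← Real.rpow_natCast, ← Real.rpow_mul hL0.le, ← Real.rpow_natCast]; norm_num
      rw [mul_pow, div_pow, this]
    rw [h1]
    calc 640 * ((m : ℝ) / (2 * i + 1)) ^ 3 / c₀ ≤ 640 * (16 * L) ^ 3 / c₀ := by gcongr
      _ = (640 * 16 ^ 3) * L ^ 3 / c₀ := by ring
      _ ≤ (640 * 16 ^ 3) * L ^ 3 / c₀ ^ 2 := by
          gcongr
          nlinarith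
      _ ≤ 1620 ^ 2 * L ^ 3 / c₀ ^ 2 := by
          gcongr
          norm_num
      _ = _ := by ring
  obtain ⟨K, hK⟩ : ∃ K : ℕ, K = ⌈1620 / c₀ * L3 * m⌉₊ := ⟨_, rfl⟩
  have hK1 : 1620 / c₀ * L3 * m ≤ K := by rw [hK]; exact Nat.le_ceil _
  have hK2 : (K : ℝ) < 1620 / c₀ * L3 * m + 1 := by
    rw [hK]; exact Nat.ceil_lt_add_one (by positivity)
  have hKone : (1 : ℝ) ≤ 1 / c₀ * L3 * m := by
    have h2 : (1 : ℝ) ≤ 1 / c₀ := by rw [le_div_iff₀ hc₀]; linarith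
    have h3 : (1 : ℝ) * 1 * 1 ≤ 1 / c₀ * L3 * m := by
      gcongr
      linarith
    linarith
  have hK3 : (K : ℝ) ≤ 1621 / c₀ * L3 * m := by
    have h4 : 1621 / c₀ * L3 * m = 1620 / c₀ * L3 * m + 1 / c₀ * L3 * m := by ring
    linarith
  have hK4 : (1 : ℝ) ≤ K := by
    have h4 : 1620 / c₀ * L3 * m = 1620 * (1 / c₀ * L3 * m) := by ring
    linarith
  refine ⟨m, b, t, i, K, ⟨f, hm⟩, hb0', hmb, ht1, hi4, fun r hr hrle => ?_⟩
  have hr0 : (0 : ℝ) < r := by exact_mod_cast hr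
  -- the bound on r
  have hr1 : (r : ℝ) ≤ 2 * Real.exp (m / 16) := by
    have h1 : c₀ / 128000 * Real.sqrt n / L ^ (3 / 4 : ℝ) = c₀ / 128000 * x := by
      rw [hx]; ring
    rw [h1] at hrle
    have h2 : Real.exp (c₀ / 128000 * x) ≤ Real.exp (m / 16) := by
      apply Real.exp_le_exp.mpr; linarith
    have h3 : (1 : ℝ) ≤ Real.exp (m / 16) := Real.one_le_exp (by positivity)
    linarith
  constructor
  · have hlog : Real.log (10000 * (m : ℝ) ^ 4 * r / c₀) ≤ m := by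
      have h1 : 10000 * (m : ℝ) ^ 4 * r / c₀ ≤ (20000 / c₀) * ((m : ℝ) ^ 4 * Real.exp (m / 16)) := by
        calc 10000 * (m : ℝ) ^ 4 * r / c₀ ≤ 10000 * (m : ℝ) ^ 4 * (2 * Real.exp (m / 16)) / c₀ := by
              gcongr
          _ = _ := by ring
      have h2 : 0 < 10000 * (m : ℝ) ^ 4 * r / c₀ := by positivity
      calc Real.log (10000 * (m : ℝ) ^ 4 * r / c₀)
          ≤ Real.log ((20000 / c₀) * ((m : ℝ) ^ 4 * Real.exp (m / 16))) :=
            Real.log_le_log h2 h1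
        _ = Real.log (20000 / c₀) + (4 * Real.log m + m / 16) := by
            rw [Real.log_mul (by positivity) (by positivity),
              Real.log_mul (by positivity) (by positivity), Real.log_pow, Real.log_exp]
            norm_num
        _ ≤ m := by linarith
    by_cases hneg : 0 ≤ Real.log (10000 * (m : ℝ) ^ 4 * r / c₀)
    · calc Real.sqrt (640 * ((m : ℝ) / (2 * i + 1)) ^ 3 / c₀)
            * Real.log (10000 * (m : ℝ) ^ 4 * r / c₀) ≤ (1620 / c₀ * L3) * m := by gcongr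
        _ ≤ K := hK1
    · have hneg := not_le.mp hneg
      have h1 := mul_nonpos_of_nonneg_of_nonpos
        (Real.sqrt_nonneg (640 * ((m : ℝ) / (2 * i + 1)) ^ 3 / c₀)) hneg.le
      linarith
  · -- the second inequality
    have hE5 : Real.exp 5 ≤ 149 := by
      have h1 : Real.exp 5 = Real.exp 1 ^ 5 := by rw [← Real.exp_nat_mul]; norm_num
      rw [h1]
      have h2 := Real.exp_one_lt_d9.le
      calc Real.exp 1 ^ 5 ≤ 2.7182818286 ^ 5 := by gcongr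
        _ ≤ 149 := by norm_num
    have hP : ((m * b + 1 : ℕ) : ℝ) ^ (4 * i) ≤ Real.exp (m / 2) := by
      have h1 : ((m * b + 1 : ℕ) : ℝ) ≤ (n : ℝ) ^ 2 := by
        have : m * b + 1 ≤ n ^ 2 := by nlinarith
        exact_mod_cast this
      calc ((m * b + 1 : ℕ) : ℝ) ^ (4 * i) ≤ ((n : ℝ) ^ 2) ^ (4 * i) := by gcongr
        _ = Real.exp ((8 * i : ℕ) * L) := by
            rw [Real.exp_nat_mul, hLdef, Real.exp_log hn0, ← pow_mul]
            ring_nf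
        _ ≤ Real.exp (m / 2) := by
            apply Real.exp_le_exp.mpr
            push_cast
            linarith
    have hN : ((K * m + 4 * i : ℕ) : ℝ) ≤ 2 * K * m := by
      push_cast
      nlinarith
    have hQ : (((K * m + 4 * i).choose (t + 1) : ℝ) / (b : ℝ) ^ (t + 1)) ≤ Real.exp (-m) := by
      have h1 := choose_div (K * m + 4 * i) (t + 1) b (by omega) hb0'
      have h2 : Real.exp 1 * ((K * m + 4 * i : ℕ) : ℝ) / (((t + 1 : ℕ) : ℝ) * b) ≤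
          Real.exp (-4) := by
        rw [div_le_iff₀ (by positivity)]
        have h3 : Real.exp (-4) * Real.exp 5 = Real.exp 1 := by rw [← Real.exp_add]; norm_num
        rw [← h3, mul_assoc]
        refine mul_le_mul_of_nonneg_left ?_ (Real.exp_pos _).le
        calc Real.exp 5 * ((K * m + 4 * i : ℕ) : ℝ) ≤ 149 * (2 * K * m) := by gcongr
          _ ≤ 149 * (2 * (1621 / c₀ * L3 * m) * m) := by gcongr
          _ ≤ (m / 4) * (15000000 / c₀ * (m : ℝ) * L3) := by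
              have : 149 * (2 * (1621 / c₀ * L3 * m) * m) =
                (149 * 2 * 1621) * (1 / c₀ * L3 * m * m) := by ring
              rw [this]
              have : (m / 4) * (15000000 / c₀ * (m : ℝ) * L3) =
                (15000000 / 4) * (1 / c₀ * L3 * m * m) := by ring
              rw [this]
              gcongr
              norm_num
          _ ≤ ((t + 1 : ℕ) : ℝ) * b := by gcongr
      calc (((K * m + 4 * i).choose (t + 1) : ℝ) / (b : ℝ) ^ (t + 1)) ≤ _ := h1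
        _ ≤ Real.exp (-4) ^ (t + 1) := by gcongr
        _ = Real.exp (((t + 1 : ℕ) : ℝ) * (-4)) := by rw [Real.exp_nat_mul]
        _ ≤ Real.exp (-m) := by
            apply Real.exp_le_exp.mpr
            linarith
    calc (r : ℝ) * ((m * b + 1 : ℕ) : ℝ) ^ (4 * i) *
          (((K * m + 4 * i).choose (t + 1) : ℝ) / (b : ℝ) ^ (t + 1))
            * (2 * (10 : ℝ) ^ 7) * ((m : ℝ) / (2 * i + 1)) ^ 6
        ≤ (2 * Real.exp (m / 16)) * Real.exp (m / 2) * Real.exp (-m)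
            * (2 * (10 : ℝ) ^ 7) * (16 * m) ^ 6 := by
          gcongr
          exact le_trans hX (by linarith)
      _ = 4 * (10 : ℝ) ^ 7 * 16 ^ 6 * (m : ℝ) ^ 6 *
            (Real.exp (m / 16) * Real.exp (m / 2) * Real.exp (-m)) := by ring
      _ = 4 * (10 : ℝ) ^ 7 * 16 ^ 6 * (m : ℝ) ^ 6 * Real.exp (-(7 / 16 * m)) := by
          rw [← Real.exp_add, ← Real.exp_add]
          ring_nf
      _ ≤ c₀ ^ 2 := hA

end SDX
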